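import Mathlib
import Pool.Agent.Y156.L.Thms

/-!
# Parshin's conjecture and products with almost all abelian varieties

Let `A` be a product of powers of abelian varieties of dimensions `g i` over the field with `q`
elements (over an extension with `q ^ s` elements and up to isogeny), given by their Weil polynomials
`f i`, and let `Z` be a scheme over the field with `q ^ s` elements. The eigenvalues of
Frobenius on the motivic cohomology of `Z` are restricted only by the condition `HasRank`: up to
powers they lie in a group generated by the nonzero elements of a number field `E` and by `r < g i`
further numbers.

The theorem says that for almost all families `f` of Weil polynomials (all but a proportion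
`O (q ^ (-1 / 6) log q)`, for all isogeny classes as well as for the ordinary ones) the motivic
cohomology of `A × Z` is a direct sum of copies of the one of `Z` (Kunneth formula, with products of
divisor classes on `A`), and that for all `i`, `j` the group `H^i(A × Z, ℚ(j))` is zero if and only if
the groups `H^(i - 2 k)(Z, ℚ(j - k))`, `0 ≤ k ≤ dim A`, are zero. So `P^n` holds for `A × Z` as soon as
`P^(n - k)` holds for `Z`, `0 ≤ k ≤ dim A`.
-/

set_option autoImplicit false

namespace Pool.Agent.Results.MP_de59b4_ag.AlmostAllAbelianFactors

open Pool.Agent.Y156.L

/-- Let `r < g i` for all `i` and let `E` be a number field. Almost all families of abelian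
varieties of dimensions `g i` over the field with `q` elements, given by their Weil polynomials
`f i`, have the property `ParshinForRankOver E q r f`: for products `A` of powers of these abelian
varieties and all `Z` of rank at most `r` over `E`, the group `H^i(A × Z, ℚ(j))` is zero if and only
if the groups `H^(i - 2 k)(Z, ℚ(j - k))`, `0 ≤ k ≤ dim A`, are zero. -/
theorem result {I : Type} [Fintype I] (g : I → ℕ) (r : ℕ) (hr : ∀ i, r < g i)
    (E : IntermediateField ℚ ℂ) [FiniteDimensional ℚ E] :
    AlmostAll g fun q f => ParshinForRankOver E q r f :=
  count_parshin g r hr E

end Pool.Agent.Results.MP_de59b4_ag.AlmostAllAbelianFactors
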