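import Pool.Agent.X312.FN.Pair

/-!
# A gap law for `P^n`: elements of infinite order in `H^i(Y × X ^ m, ℤ(n))`, `i ≠ 2 n`

Let `X` be a smooth projective geometrically irreducible variety over a finite field `k`, such
that the numerically trivial self-correspondences of its powers are nilpotent (by Kimura this
holds if the Chow motive of `X` is finite-dimensional, for example for products of curves and for
abelian varieties) and such that homological and numerical equivalence agree on its powers for one
Weil cohomology theory (known for abelian varieties and products of curves and suitable `ℓ` by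
Clozel). Let `ρ(Z)` be the rank of the cycles of all codimensions on `Z` modulo numerical
equivalence, and `b` the sum of the Betti numbers of `X`. Let `Y` be **any** smooth projective
variety over `k` and `a ≥ 1`. Suppose that **one** of the groups `H^(2 w - a)(Y × X ^ m, ℤ(w))`,
`w ≥ 2`, contains an element of infinite order. **Then for each** `N ≥ 1` **there is a weight**
`w` **with** `2 ≤ w ≤ a + dim Y + N dim X` **and**

`rank H^(2 w - a)(Y × X ^ N, ℤ(w)) ≥ (1 - ε_N) ρ(X ^ N) / (a + dim Y + N dim X - 1)`,

where `ε_N = 4 (m + 3) b ^ (m + 5) log (N + 1) / N` tends to zero. In most cases, for example for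
abelian varieties, `ρ(X ^ N)` grows much faster than any power of `N`. So to prove that all the
groups `H^(2 w - a)(Y × X ^ m, ℤ(w))` are torsion groups it suffices to bound for one large `N`
the ranks of the groups `H^(2 w - a)(Y × X ^ N, ℤ(w))` by a number smaller than this.

Let `T(Z) = ⊕_w H^(2 w - a)(Y × Z, ℚ(w))`, on which the correspondences act. The weights `w` with
`H^(2 w - a)(Y × Z, ℚ(w)) ≠ 0` satisfy `2 ≤ w ≤ a + dim Y + dim Z` (Soulé). By the gap law for the
functor `T` the dimension of `T(X ^ N)` is at least `(1 - ε_N) ρ(X ^ N)`, and one of the at most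
`a + dim Y + N dim X - 1` summands is at least as large as the average.

The proof. Modulo numerical equivalence the self-correspondences of `P = X ^ m` form a
finite-dimensional algebra, and the numerically trivial ones are nilpotent, so that idempotents
can be lifted. If the functor `T` does not vanish on `P`, one takes an idempotent correspondence
`g` on `P` of minimal rank with `g T(P) ≠ 0` and an element `z ≠ 0` of `g T(P)`. The
correspondences `x` with `x z = 0` have a nilpotent compression `g x g`, so the trace of `g x`
vanishes, and so `dim T(Z)` is at least the rank of the trace form `(u, v) ↦ tr (g v u)` on the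
correspondences between `P` and `Z`; for `Z = X ^ n` this rank is compared with `ρ(X ^ n)` by the
log-convexity of the sequence of the ranks of the intersection forms and by the symmetric group.
-/

set_option autoImplicit false

open CategoryTheory AlgebraicGeometry

universe u v w

namespace Pool.Agent.Results.MP_de59b4_ag.FunctorGapLaw

open Pool.Agent.H914 VarClass Obj WeilCohomology
open Pool.Agent.X312.FN (CorrCat CorrFunctor DimAtLeast gapBound)
open Pool.Agent.Y133.Half (pw cycRank)

variable {k : Type u} [Field k] {𝒱 : VarClass k} {ops : CycleOps 𝒱}
  {W : WeilCohomology.{u, v} ops}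

/-- The sum of the Betti numbers of `X`. -/
noncomputable def totalBetti (W : WeilCohomology.{u, v} ops) (X : 𝒱.Obj) : ℕ :=
  Module.finrank W.K (W.H X)

/-- **The gap law with weights.** Here `C` is the category of Chow correspondences over `k` with
coefficients in `F` (in the intended use `F = ℚ`), `T` is an additive functor, in the intended use
`T(Z) = ⊕_w H^(2 w - a)(Y × Z, ℚ(w))`, which is the sum of subspaces `G Z j`, where `j` runs over the
`wt Z ≥ 1` possible weights, and `pw X m` is the product of `m + 1` copies of `X`. -/
theorem result {F : Type w} [Field F] {σ : F →+* W.K} (C : CorrCat W σ) (hC : C.IsLawful)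
    (T : CorrFunctor C) (wt : 𝒱.Obj → ℕ) (hwt : ∀ Z, 0 < wt Z)
    (G : ∀ Z : 𝒱.Obj, Fin (wt Z) → Submodule F (T.M Z)) (hG : ∀ Z, ⨆ j, G Z j = ⊤)
    (X : 𝒱.Obj) (hX : ∀ n : ℕ, C.NumNil (pw X n)) (hD : ∀ n : ℕ, HomEqNum W (pw X n)) (m : ℕ) :
    (∀ x : T.M (pw X m), x = 0) ∨
    ∀ n : ℕ, ∃ j, DimAtLeast F (G (pw X n) j)
      (gapBound (totalBetti W X) (cycRank ops (pw X n)) m n / wt (pw X n)) :=
  Pool.Agent.X312.FN.weight_law hC T wt hwt G hG X hX hD m

end Pool.Agent.Results.MP_de59b4_ag.FunctorGapLaw
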